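import Pool.Agent.TH801.FM.Unif

/-!
# Large values of Montgomery's function `F(α, T)`

The strong pair correlation conjecture asserts that `F(α, T) = 1 + o(1)` uniformly for
`1 ≤ α ≤ A`.  For `α > 1` the trivial bound is `F(α, T) ≤ F(0, T) ∼ log T`.  Assume the Riemann
hypothesis.  We prove that for all `ε > 0` there is `c > 0` with
`F(α, T) ≤ F(0, T) - c log T` for `ε ≤ α ≤ 2 - ε` and large `T`, in particular on `[1, A]` for every
`A < 2`, and that two frequencies `α`, `β` at which `F` is larger than `F(0, T) - c log T` satisfy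
`|α - β| < ε` or `|α - β| > 2 - ε`.  For `α = 2` such a bound would contradict the Alternative
Hypothesis.  The same holds for the zeros in almost all short intervals `(t, t + T ^ η]`, with
`1 + η` in place of `2`.

Proof.  If `F(θ, T)` is near `F(0, T)` then for most of the zeros `γ` the numbers
`T ^ (iθγ')`, `|γ - γ'| ≤ 1`, are near `T ^ (iθγ)` for most of the `log T` zeros `γ'`.  Then this holds
also for most of the pairs `γ, γ'` at a distance `≪ 1 / log T`, and for these the frequencies `α` and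
`α - θ` cannot be distinguished.  But Montgomery's theorem gives the form factors `|α|` and `|α - θ|`,
which are different for suitable `α` with `|α|, |α - θ| < 1` as `θ < 2`.
-/

open MeasureTheory Filter

namespace Pool.Agent.Results.MP_00e05b_nt.LargeValues

/-- the nontrivial zeros of `ζ` with ordinate in `(A, B]` -/
def zeros (A B : ℝ) : Set ℂ :=
  {s : ℂ | 0 < s.re ∧ s.re < 1 ∧ A < s.im ∧ s.im ≤ B ∧ riemannZeta s = 0}

/-- the multiplicity of `s` as a zero of `ζ` -/
noncomputable def mult (s : ℂ) : ℕ := analyticOrderNatAt riemannZeta s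

/-- Montgomery's function for the zeros with ordinate in `(A, B]`, at the scale `log T`:
`(((B - A)/2π) log T)⁻¹ ∑_γ ∑_γ' T ^ (iα(γ - γ')) w(γ - γ')`, `w(u) = 4 / (4 + u²)`, the zeros being
counted with multiplicity -/
noncomputable def FI (α T A B : ℝ) : ℂ :=
  (((B - A) / (2 * Real.pi) * Real.log T : ℝ) : ℂ)⁻¹ *
    ∑ᶠ s ∈ zeros A B, ∑ᶠ s' ∈ zeros A B, (mult s : ℂ) * (mult s' : ℂ) *
      ((T : ℂ) ^ (Complex.I * α * ((s.im - s'.im : ℝ) : ℂ)) *
        (4 / (4 + ((s.im - s'.im : ℝ) : ℂ) ^ 2)))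

/-- Montgomery's function `F(α, T)`:
`((T/2π) log T)⁻¹ ∑_γ ∑_γ' T ^ (iα(γ - γ')) w(γ - γ')` over the zeros with ordinates in `(0, T]` -/
noncomputable def F (α T : ℝ) : ℂ := FI α T 0 T

open TH801.FM H370 SG H177.Lat

lemma zeros_finite {A : ℝ} (hA : 0 ≤ A) (B : ℝ) : (zeros A B).Finite :=
  (H370.zeta_zeros_finite B).subset fun _ hs => ⟨hs.1, hs.2.1, hA.trans_lt hs.2.2.1, hs.2.2.2⟩

/-- the weighted sum of `sin ^ 2` over the pairs of a finite set -/
noncomputable def Q (Z : Finset ℂ) (u : ℝ) : ℝ :=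
  ∑ s ∈ Z, ∑ s' ∈ Z, (mult s : ℝ) * (mult s' : ℝ) *
    (ww (s.im - s'.im) * (Real.sin (u * (s.im - s'.im) / 2)) ^ 2)

lemma Q_mono {Z Z' : Finset ℂ} (h : Z ⊆ Z') (u : ℝ) : Q Z u ≤ Q Z' u := by
  unfold Q
  have h0 : ∀ s s' : ℂ, 0 ≤ (mult s : ℝ) * (mult s' : ℝ) *
      (ww (s.im - s'.im) * (Real.sin (u * (s.im - s'.im) / 2)) ^ 2) := by
    intro s s'
    have := ww_nonneg (s.im - s'.im)
    positivity
  calc _ ≤ ∑ s ∈ Z, ∑ s' ∈ Z', (mult s : ℝ) * (mult s' : ℝ) *
      (ww (s.im - s'.im) * (Real.sin (u * (s.im - s'.im) / 2)) ^ 2) :=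
        Finset.sum_le_sum fun s _ => Finset.sum_le_sum_of_subset_of_nonneg h fun s' _ _ => h0 s s'
    _ ≤ _ := Finset.sum_le_sum_of_subset_of_nonneg h fun s _ _ =>
        Finset.sum_nonneg fun s' _ => h0 s s'

lemma Q_neg (Z : Finset ℂ) (u : ℝ) : Q Z (-u) = Q Z u := by
  unfold Q
  refine Finset.sum_congr rfl fun s _ => Finset.sum_congr rfl fun s' _ => ?_
  have : -u * (s.im - s'.im) / 2 = -(u * (s.im - s'.im) / 2) := by ring
  rw [this, Real.sin_neg, neg_sq]

lemma Q_sub (Z : Finset ℂ) (u v : ℝ) : Q Z (u - v) ≤ 2 * Q Z u + 2 * Q Z v := by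
  unfold Q
  rw [Finset.mul_sum, Finset.mul_sum, ← Finset.sum_add_distrib]
  refine Finset.sum_le_sum fun s _ => ?_
  rw [Finset.mul_sum, Finset.mul_sum, ← Finset.sum_add_distrib]
  refine Finset.sum_le_sum fun s' _ => ?_
  have h := sin_sq_le (u * (s.im - s'.im) / 2) (-(v * (s.im - s'.im) / 2))
  have e : u * (s.im - s'.im) / 2 + -(v * (s.im - s'.im) / 2) = (u - v) * (s.im - s'.im) / 2 := by
    ring
  rw [e, Real.sin_neg, neg_sq] at h
  have h2 := ww_nonneg (s.im - s'.im)
  have h3 : 0 ≤ (mult s : ℝ) * (mult s' : ℝ) * ww (s.im - s'.im) := by positivity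
  calc _ = (mult s : ℝ) * (mult s' : ℝ) * ww (s.im - s'.im) *
        (Real.sin ((u - v) * (s.im - s'.im) / 2)) ^ 2 := by ring
    _ ≤ (mult s : ℝ) * (mult s' : ℝ) * ww (s.im - s'.im) *
        (2 * (Real.sin (u * (s.im - s'.im) / 2)) ^ 2 +
          2 * (Real.sin (v * (s.im - s'.im) / 2)) ^ 2) := mul_le_mul_of_nonneg_left h h3
    _ = _ := by ring

lemma term_eq {T : ℝ} (hT : 0 < T) (α d : ℝ) :
    (T : ℂ) ^ (Complex.I * α * (d : ℂ)) * (4 / (4 + (d : ℂ) ^ 2)) =
      ((Real.cos (α * Real.log T * d) * ww d : ℝ) : ℂ) +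
        ((Real.sin (α * Real.log T * d) * ww d : ℝ) : ℂ) * Complex.I := by
  have hT0 : (T : ℂ) ≠ 0 := by exact_mod_cast hT.ne'
  rw [Complex.cpow_def_of_ne_zero hT0, ← Complex.ofReal_log hT.le]
  have e : (Real.log T : ℂ) * (Complex.I * α * (d : ℂ)) =
      ((α * Real.log T * d : ℝ) : ℂ) * Complex.I := by push_cast; ring
  rw [e, Complex.exp_mul_I, ← Complex.ofReal_cos, ← Complex.ofReal_sin]
  unfold ww
  push_cast
  ring

lemma FI_eq {T : ℝ} (hT : 0 < T) {A : ℝ} (hA : 0 ≤ A) (α B : ℝ) :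
    FI α T A B = (((B - A) / (2 * Real.pi) * Real.log T : ℝ) : ℂ)⁻¹ *
      (((∑ s ∈ (zeros_finite hA B).toFinset, ∑ s' ∈ (zeros_finite hA B).toFinset,
        (mult s : ℝ) * (mult s' : ℝ) *
          (Real.cos (α * Real.log T * (s.im - s'.im)) * ww (s.im - s'.im)) : ℝ) : ℂ) +
      ((∑ s ∈ (zeros_finite hA B).toFinset, ∑ s' ∈ (zeros_finite hA B).toFinset,
        (mult s : ℝ) * (mult s' : ℝ) *
          (Real.sin (α * Real.log T * (s.im - s'.im)) * ww (s.im - s'.im)) : ℝ) : ℂ) *
        Complex.I) := by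
  unfold FI
  congr 1
  rw [finsum_mem_eq_finite_toFinset_sum _ (zeros_finite hA B)]
  push_cast
  rw [Finset.sum_mul, ← Finset.sum_add_distrib]
  refine Finset.sum_congr rfl fun s _ => ?_
  rw [finsum_mem_eq_finite_toFinset_sum _ (zeros_finite hA B), Finset.sum_mul,
    ← Finset.sum_add_distrib]
  refine Finset.sum_congr rfl fun s' _ => ?_
  rw [← Complex.ofReal_sub, term_eq hT]
  push_cast
  ring

lemma sin_sum (Z : Finset ℂ) (u : ℝ) :
    ∑ s ∈ Z, ∑ s' ∈ Z, (mult s : ℝ) * (mult s' : ℝ) *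
      (Real.sin (u * (s.im - s'.im)) * ww (s.im - s'.im)) = 0 := by
  have h : ∑ s ∈ Z, ∑ s' ∈ Z, (mult s : ℝ) * (mult s' : ℝ) *
      (Real.sin (u * (s.im - s'.im)) * ww (s.im - s'.im)) =
      -∑ s ∈ Z, ∑ s' ∈ Z, (mult s : ℝ) * (mult s' : ℝ) *
      (Real.sin (u * (s.im - s'.im)) * ww (s.im - s'.im)) := by
    conv_lhs => rw [Finset.sum_comm]
    rw [← Finset.sum_neg_distrib]
    refine Finset.sum_congr rfl fun s _ => ?_
    rw [← Finset.sum_neg_distrib]
    refine Finset.sum_congr rfl fun s' _ => ?_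
    have e1 : u * (s'.im - s.im) = -(u * (s.im - s'.im)) := by ring
    have e2 : ww (s'.im - s.im) = ww (s.im - s'.im) := by
      unfold ww
      congr 2
      ring
    rw [e1, e2, Real.sin_neg]
    ring
  linarith

lemma FI_im {T : ℝ} (hT : 0 < T) {A : ℝ} (hA : 0 ≤ A) (α B : ℝ) : (FI α T A B).im = 0 := by
  rw [FI_eq hT hA, sin_sum, Complex.ofReal_zero, zero_mul, add_zero, ← Complex.ofReal_inv,
    ← Complex.ofReal_mul]
  exact Complex.ofReal_im _

lemma FI_re {T : ℝ} (hT : 0 < T) {A : ℝ} (hA : 0 ≤ A) (α B : ℝ) :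
    (FI α T A B).re = ((B - A) / (2 * Real.pi) * Real.log T)⁻¹ *
      ∑ s ∈ (zeros_finite hA B).toFinset, ∑ s' ∈ (zeros_finite hA B).toFinset,
        (mult s : ℝ) * (mult s' : ℝ) *
          (Real.cos (α * Real.log T * (s.im - s'.im)) * ww (s.im - s'.im)) := by
  rw [FI_eq hT hA, sin_sum, Complex.ofReal_zero, zero_mul, add_zero, ← Complex.ofReal_inv,
    ← Complex.ofReal_mul, Complex.ofReal_re]

lemma FI_diff {T : ℝ} (hT : 0 < T) {A : ℝ} (hA : 0 ≤ A) (α B : ℝ) :
    (FI 0 T A B).re - (FI α T A B).re = ((B - A) / (2 * Real.pi) * Real.log T)⁻¹ *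
      (2 * Q (zeros_finite hA B).toFinset (α * Real.log T)) := by
  rw [FI_re hT hA, FI_re hT hA, ← mul_sub]
  congr 1
  unfold Q
  rw [← Finset.sum_sub_distrib, Finset.mul_sum]
  refine Finset.sum_congr rfl fun s _ => ?_
  rw [← Finset.sum_sub_distrib, Finset.mul_sum]
  refine Finset.sum_congr rfl fun s' _ => ?_
  have e : Real.cos (α * Real.log T * (s.im - s'.im)) =
      1 - 2 * (Real.sin (α * Real.log T * (s.im - s'.im) / 2)) ^ 2 := by
    have h := Real.cos_two_mul (α * Real.log T * (s.im - s'.im) / 2)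
    have h2 := Real.sin_sq_add_cos_sq (α * Real.log T * (s.im - s'.im) / 2)
    have h3 : 2 * (α * Real.log T * (s.im - s'.im) / 2) = α * Real.log T * (s.im - s'.im) := by ring
    rw [h3] at h
    rw [h]
    linarith
  rw [e, zero_mul, zero_mul, Real.cos_zero]
  ring

/-- the sum over the zeros of a window as a sum over indices -/
lemma Q_window (hRH : RiemannHypothesis) {t : ℝ} (ht : 1 ≤ t) (H T θ : ℝ) :
    Q (Zf riemannZeta t (t + H)) (θ * Real.log T) = SS T t H θ := by
  have h := double_conv hRH (B := t + H) ht (fun x x' =>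
    ww (x - x') * (Real.sin (θ * Real.log T * (x - x') / 2)) ^ 2)
  have e : Q (Zf riemannZeta t (t + H)) (θ * Real.log T) =
      ∑ s ∈ Zf riemannZeta t (t + H), ∑ s' ∈ Zf riemannZeta t (t + H),
        (H370.mult riemannZeta s : ℝ) * (H370.mult riemannZeta s' : ℝ) *
        (ww (s.im - s'.im) * (Real.sin (θ * Real.log T * (s.im - s'.im) / 2)) ^ 2) := rfl
  rw [e, h]
  unfold SS
  refine Finset.sum_congr rfl fun n _ => Finset.sum_congr rfl fun m _ => ?_
  congr 3
  unfold yy
  have := Real.pi_pos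
  field_simp

lemma Zf_eq {t : ℝ} (ht : 1 ≤ t) (B : ℝ) :
    (zeros_finite (zero_le_one.trans ht) B).toFinset = Zf riemannZeta t B := by
  ext s
  rw [Set.Finite.mem_toFinset, mem_Zf good_zeta ht]
  rfl

lemma Q_abs (Z : Finset ℂ) (θ L : ℝ) : Q Z (θ * L) = Q Z (|θ| * L) := by
  rcases abs_choice θ with h | h
  · rw [h]
  · rw [h, neg_mul, Q_neg]

/-- **Large values of Montgomery's function.**  Assume the Riemann hypothesis.
(1) `F(α, T)` is real.  For every `ε > 0` there is `c > 0` such that for all large `T` and all real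
`α` with `ε ≤ α ≤ 2 - ε`: `F(α, T) ≤ F(0, T) - c log T`.
(2) More generally `(F(0, T) - F(α, T)) + (F(0, T) - F(β, T)) ≥ c log T` for all real `α, β` with
`ε ≤ |α - β| ≤ 2 - ε`.
(3) Let `0 < η < 1`.  There are `c, δ > 0` such that for all large `T` and `T ^ η ≤ H ≤ T / 8` the
same holds for `ε ≤ |α - β| ≤ 1 + η - ε` and Montgomery's function for the zeros with ordinates in
`(t, t + H]`, for all `t ∈ [T, 2T]` outside a set of measure at most `T ^ (1 - δ)`. -/
theorem result (hRH : RiemannHypothesis) (ε : ℝ) (hε : 0 < ε) :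
    (∃ c T₀ : ℝ, 0 < c ∧ ∀ T : ℝ, T₀ ≤ T →
      (∀ α : ℝ, (F α T).im = 0) ∧
      (∀ α : ℝ, ε ≤ α → α ≤ 2 - ε → (F α T).re ≤ (F 0 T).re - c * Real.log T) ∧
      (∀ α β : ℝ, ε ≤ |α - β| → |α - β| ≤ 2 - ε →
        c * Real.log T ≤ ((F 0 T).re - (F α T).re) + ((F 0 T).re - (F β T).re))) ∧
    (∀ η : ℝ, 0 < η → η < 1 → ∃ c δ T₀ : ℝ, 0 < c ∧ 0 < δ ∧ ∀ T : ℝ, T₀ ≤ T →
      ∀ H : ℝ, T ^ η ≤ H → H ≤ T / 8 →
      volume {t : ℝ | T ≤ t ∧ t ≤ 2 * T ∧ ¬ (∀ α β : ℝ, ε ≤ |α - β| → |α - β| ≤ 1 + η - ε →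
        c * Real.log T ≤ ((FI 0 T t (t + H)).re - (FI α T t (t + H)).re) +
          ((FI 0 T t (t + H)).re - (FI β T t (t + H)).re))} ≤ ENNReal.ofReal (T ^ (1 - δ))) := by
  have hpi := Real.pi_pos
  constructor
  · set ε' : ℝ := min (ε / 4) (1 / 4) with hε'
    have hε'0 : 0 < ε' := lt_min (by positivity) (by norm_num)
    have hε'1 : ε' ≤ ε / 4 := min_le_left _ _
    have hε'2 : ε' ≤ 1 / 4 := min_le_right _ _
    obtain ⟨c, δ, hc, hδ, T0, hT0, g⟩ := almost_uniform hRH (1 - ε') ε' (by linarith) (by linarith)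
      hε'0
    have hev1 : ∀ᶠ T : ℝ in atTop, T ^ (1 - ε') ≤ T / 8 := by
      have h1 : ∀ᶠ T : ℝ in atTop, (8 : ℝ) ≤ T ^ ε' :=
        (tendsto_rpow_atTop hε'0).eventually_ge_atTop _
      filter_upwards [h1, eventually_gt_atTop 0] with T h1 h2
      have h3 : T ^ (1 - ε') * T ^ ε' = T := by
        rw [← Real.rpow_add h2]
        have : 1 - ε' + ε' = 1 := by ring
        rw [this, Real.rpow_one]
      have h4 : 0 < T ^ (1 - ε') := Real.rpow_pos_of_pos h2 _
      nlinarith
    have hev2 : ∀ᶠ T : ℝ in atTop, Real.log 4 * (2 / ε') ≤ Real.log T :=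
      Real.tendsto_log_atTop.eventually_ge_atTop _
    have hev3 : ∀ᶠ T : ℝ in atTop, T ^ (1 - δ) < T := by
      filter_upwards [eventually_gt_atTop 1] with T h1
      calc T ^ (1 - δ) < T ^ (1 : ℝ) := Real.rpow_lt_rpow_of_exponent_lt h1 (by linarith)
        _ = T := Real.rpow_one T
    obtain ⟨T1, hT1⟩ := (hev1.and (hev2.and hev3)).exists_forall_of_atTop
    -- the bound for one frequency
    have key : ∀ T : ℝ, 4 * max T0 T1 ≤ T → ∀ θ : ℝ, ε ≤ |θ| → |θ| ≤ 2 - ε →
        c / 64 * Real.log T ≤ (F 0 T).re - (F θ T).re := by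
      intro T hT θ hθ1 hθ2
      set T' : ℝ := T / 4 with hT'
      have hTT0 : T0 ≤ T' := by
        have := le_max_left T0 T1
        rw [hT']; linarith
      have hTT1 : T1 ≤ T' := by
        have := le_max_right T0 T1
        rw [hT']; linarith
      have hT'100 : 100 ≤ T' := hT0.trans hTT0
      have hT'pos : 0 < T' := by linarith
      have hTpos : 0 < T := by rw [hT'] at hT'pos; linarith
      have hT4 : T = 4 * T' := by rw [hT']; ring
      obtain ⟨e1, e2, e3⟩ := hT1 T' hTT1
      have hL'pos : 0 < Real.log T' := Real.log_pos (by linarith)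
      have hL4 : 0 < Real.log 4 := Real.log_pos (by norm_num)
      have hLL : Real.log T = Real.log 4 + Real.log T' := by
        rw [hT4, Real.log_mul (by norm_num) hT'pos.ne']
      have hLpos : 0 < Real.log T := by linarith
      have hL2 : Real.log T' ≤ Real.log T := by linarith
      have hL4' : Real.log 4 ≤ ε' / 2 * Real.log T' := by
        have h1 : Real.log 4 * (2 / ε') * (ε' / 2) ≤ Real.log T' * (ε' / 2) :=
          mul_le_mul_of_nonneg_right e2 (by positivity)
        have h2 : Real.log 4 * (2 / ε') * (ε' / 2) = Real.log 4 := by field_simp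
        linarith
      have hLhalf : Real.log T ≤ 2 * Real.log T' := by nlinarith
      -- a good window
      obtain ⟨t, ht1, ht2, ht3⟩ : ∃ t : ℝ, T' ≤ t ∧ t ≤ 2 * T' ∧
          ∀ θ ∈ Set.Icc ε' (1 + (1 - ε') - ε'),
            c * (T' / 8 * Real.log T' * Real.log T') ≤ SS T' t (T' / 8) θ := by
        by_contra hcon
        push Not at hcon
        have h1 := g T' hTT0 (T' / 8) e1 le_rfl
        have h2 : Set.Icc T' (2 * T') ⊆ {t : ℝ | t ∈ Set.Icc T' (2 * T') ∧
            ¬ (∀ θ ∈ Set.Icc ε' (1 + (1 - ε') - ε'),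
              c * (T' / 8 * Real.log T' * Real.log T') ≤ SS T' t (T' / 8) θ)} := by
          intro t ht
          refine ⟨ht, ?_⟩
          push Not
          exact hcon t ht.1 ht.2
        have h3 := (measure_mono h2).trans h1
        rw [Real.volume_Icc, ENNReal.ofReal_le_ofReal_iff (by positivity)] at h3
        linarith
      have htpos : 1 ≤ t := by linarith
      set θ' : ℝ := |θ| * (Real.log T / Real.log T') with hθ'
      have hratio : 1 ≤ Real.log T / Real.log T' := by rw [le_div_iff₀ hL'pos]; linarith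
      have hratio2 : Real.log T / Real.log T' ≤ 1 + ε' / 2 := by
        rw [div_le_iff₀ hL'pos]; linarith
      have hθ'mem : θ' ∈ Set.Icc ε' (1 + (1 - ε') - ε') := by
        have h0 := abs_nonneg θ
        constructor
        · calc ε' ≤ |θ| * 1 := by linarith
            _ ≤ θ' := mul_le_mul_of_nonneg_left hratio h0
        · have h1 : θ' ≤ |θ| * (1 + ε' / 2) := mul_le_mul_of_nonneg_left hratio2 h0
          nlinarith
      have h4 := ht3 θ' hθ'mem
      rw [← Q_window hRH htpos] at h4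
      have h5 : θ' * Real.log T' = |θ| * Real.log T := by rw [hθ']; field_simp
      rw [h5] at h4
      have h6 : Q (Zf riemannZeta t (t + T' / 8)) (|θ| * Real.log T) ≤
          Q (zeros_finite (le_refl (0 : ℝ)) T).toFinset (θ * Real.log T) := by
        rw [Q_abs _ θ]
        apply Q_mono
        intro s hs
        rw [mem_Zf good_zeta htpos] at hs
        rw [Set.Finite.mem_toFinset]
        obtain ⟨a1, a2, a3, a4, a5⟩ := hs
        exact ⟨a1, a2, by linarith, by linarith, a5⟩
      unfold F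
      rw [FI_diff hTpos le_rfl]
      have hX : 0 < (T - 0) / (2 * Real.pi) * Real.log T := by
        rw [sub_zero]; positivity
      rw [inv_mul_eq_div, le_div_iff₀ hX]
      have h7 : c * (T' / 8 * Real.log T' * Real.log T') ≤
          Q (zeros_finite (le_refl (0 : ℝ)) T).toFinset (θ * Real.log T) := h4.trans h6
      have h8 : Real.log T * Real.log T ≤ 4 * (Real.log T' * Real.log T') := by nlinarith
      have h9 : c / 64 * Real.log T * ((T - 0) / (2 * Real.pi) * Real.log T) =
          c * T' / (32 * Real.pi) * (Real.log T * Real.log T) := by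
        rw [hT4]
        field_simp
        ring
      rw [h9]
      have hpi3 := Real.pi_gt_three
      calc c * T' / (32 * Real.pi) * (Real.log T * Real.log T) ≤
            c * T' / (32 * Real.pi) * (4 * (Real.log T' * Real.log T')) := by gcongr
        _ ≤ c * T' / (32 * 1) * (4 * (Real.log T' * Real.log T')) := by
            gcongr
            linarith
        _ = c * (T' / 8 * Real.log T' * Real.log T') := by ring
        _ ≤ 2 * (c * (T' / 8 * Real.log T' * Real.log T')) := by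
            have : 0 ≤ c * (T' / 8 * Real.log T' * Real.log T') := by positivity
            linarith
        _ ≤ _ := mul_le_mul_of_nonneg_left h7 zero_le_two
    refine ⟨c / 128, 4 * max T0 T1, by positivity, fun T hT => ?_⟩
    have hTpos : 0 < T := by
      have := le_max_left T0 T1
      linarith
    have hT1' : 1 ≤ T := by
      have := le_max_left T0 T1
      linarith
    have hL0 : 0 ≤ Real.log T := Real.log_nonneg hT1'
    refine ⟨fun α => FI_im hTpos le_rfl α T, fun α h1 h2 => ?_, fun α β h1 h2 => ?_⟩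
    · have h3 := key T hT α (h1.trans (le_abs_self α)) (by rwa [abs_of_nonneg (by linarith)])
      have h4 : c / 128 * Real.log T ≤ c / 64 * Real.log T := by
        apply mul_le_mul_of_nonneg_right _ hL0
        linarith
      linarith
    · have h3 := key T hT (α - β) h1 h2
      unfold F at h3 ⊢
      rw [FI_diff hTpos le_rfl] at h3
      rw [FI_diff hTpos le_rfl, FI_diff hTpos le_rfl]
      have h4 := Q_sub (zeros_finite (le_refl (0 : ℝ)) T).toFinset (α * Real.log T)
        (β * Real.log T)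
      rw [← sub_mul] at h4
      have hX : 0 ≤ ((T - 0) / (2 * Real.pi) * Real.log T)⁻¹ := by
        rw [sub_zero]; positivity
      have h5 := mul_le_mul_of_nonneg_left h4 hX
      have h6 : c / 64 * Real.log T = 2 * (c / 128 * Real.log T) := by ring
      nlinarith
  · intro η hη hη1
    obtain ⟨c, δ, hc, hδ, T0, hT0, g⟩ := almost_uniform hRH η ε hη hη1 hε
    refine ⟨2 * Real.pi * c, δ, T0, by positivity, hδ, fun T hT H hH1 hH2 =>
      (measure_mono ?_).trans (g T hT H hH1 hH2)⟩
    rintro t ⟨ht1, ht2, ht3⟩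
    refine ⟨⟨ht1, ht2⟩, fun hcon => ht3 fun α β h1 h2 => ?_⟩
    have hT100 : 100 ≤ T := hT0.trans hT
    have hTpos : 0 < T := by linarith
    have htpos : 1 ≤ t := by linarith
    have hLpos : 0 < Real.log T := Real.log_pos (by linarith)
    have hHpos : 0 < H := lt_of_lt_of_le (Real.rpow_pos_of_pos hTpos _) hH1
    have h3 := hcon |α - β| ⟨h1, h2⟩
    rw [← Q_window hRH htpos, ← Q_abs, ← Zf_eq htpos] at h3
    rw [FI_diff hTpos (zero_le_one.trans htpos), FI_diff hTpos (zero_le_one.trans htpos)]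
    have h4 := Q_sub (zeros_finite (zero_le_one.trans htpos) (t + H)).toFinset (α * Real.log T)
      (β * Real.log T)
    rw [← sub_mul] at h4
    have hX : 0 < (t + H - t) / (2 * Real.pi) * Real.log T := by
      rw [add_sub_cancel_left]; positivity
    rw [← mul_add, inv_mul_eq_div, le_div_iff₀ hX]
    have e : 2 * Real.pi * c * Real.log T * ((t + H - t) / (2 * Real.pi) * Real.log T) =
        c * (H * Real.log T * Real.log T) := by
      rw [add_sub_cancel_left]
      field_simp
    rw [e]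
    linarith

end Pool.Agent.Results.MP_00e05b_nt.LargeValues
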